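import Pool.Agent.MP_09973c_nt.H58.SpecT

/-!
Varying entry points are impossible.
-/

set_option autoImplicit false

namespace Pool.Agent.MP_09973c_nt.H3

open Polynomial Finset Filter Classical Pool.Agent.MP_09973c_nt.H58

variable {p q : ℕ}

/-- Two conjugate tails agree, up to a root of unity, at a level in the upper half. -/
def Linked {c c' : Qb} (E : Dat p q c) (E' : Dat p q c') (g g' : Gal) : Prop :=
  ∃ j, 2 * j ≤ E.n ∧ ∃ μ : Qb, μ ^ (q - p) = 1 ∧ μ * g' (E'.lev j) = g (E.lev j)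

/-- Two conjugate tails merge at depth `j`. -/
def Merge {c c' : Qb} (E : Dat p q c) (E' : Dat p q c') (o o' : ℕ) (g g' : Gal) (j : ℕ) : Prop :=
  g (E.t (j + o)) ^ q = c / c' * g' (E'.t (j + o')) ^ q

theorem vary {c : Qb} {U : Ultrafilter ℕ} {E : ℕ → Dat p q c}
    (hv : ∀ x, ∀ᶠ ν in (U : Filter ℕ), (E ν).u 0 ≠ x) {S : Set Qb} (hS : S.Finite) :
    ∀ᶠ ν in (U : Filter ℕ), (E ν).u 0 ∉ S :=
  ((eventually_all_finite hS).2 fun x _ => hv x).mono fun _ h h' => h _ h' rfl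

theorem linked_size (hpq : p < q) {c c' : Qb} {d : ℕ} {Ca : ℝ} (hc : Sz c d Ca) (hc' : Sz c' d Ca)
    {E : Dat p q c} {E' : Dat p q c'} {o o' j : ℕ} (hn : E.n + o' = E'.n + o)
    (hj : 2 * (j + o) ≤ E.n) {g g' : Gal} (h : Linked E E' g g') (s : Gal) :
    |lp (s (g (E.t (j + o)))) - lp (s (g' (E'.t (j + o'))))| ≤ 2 * Real.log (1 + Ca) := by
  obtain ⟨i, hi, μ, hμ, e⟩ := h
  have h1 := ((E.fwd_lev (m := E.n - (j + o)) (by omega)).map ((s * g : Gal) : Qb →+* Qb)).shift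
    (i := i) (m := E.n - (j + o) - i) (by omega)
  have h2 := ((E'.fwd_lev (m := E.n - (j + o)) (by omega)).map ((s * g' : Gal) : Qb →+* Qb)).shift
    (i := i) (m := E.n - (j + o) - i) (by omega)
  have h3 := match_fwd (F := Qb) hpq (hc.2 (s * g)) (hc'.2 (s * g')) h1 h2 le_rfl (by
    have h4 : ‖s μ‖ = 1 := norm_root (M := q - p) (by omega) (by rw [← map_pow, hμ, map_one])
    have h6 := log_one_add_nonneg hc.nonneg
    simp only [RingHom.coe_coe, add_zero, AlgEquiv.mul_apply, ← e, map_mul, lp_unit_mul h4,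
      sub_self, abs_zero]
    linarith) _ le_rfl
  simp only [RingHom.coe_coe, AlgEquiv.mul_apply] at h3
  rwa [show i + (E.n - (j + o) - i) = E.n - (j + o) by omega, E.lev_sub (by omega),
    show E.n - (j + o) = E'.n - (j + o') by omega, E'.lev_sub (by omega)] at h3

/-- Uniform merge depth. -/
theorem uniform (hI : IPStmt) (hp : 2 ≤ p) (hpq : p < q) (hcop : p.Coprime q) {c c' : Qb}
    (hc : c ≠ 0) (hc' : c' ≠ 0) {G : Subgroup Gal} (hG : ∀ g ∈ G, g c = c ∧ g c' = c')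
    {U : Ultrafilter ℕ} {E : ℕ → Dat p q c} {E' : ℕ → Dat p q c'} {o o' : ℕ}
    (hn : ∀ᶠ ν in (U : Filter ℕ), (E ν).n + o' = (E' ν).n + o)
    (hl : ∀ J, ∀ᶠ ν in (U : Filter ℕ), J ≤ (E ν).n)
    (hv : ∀ x, ∀ᶠ ν in (U : Filter ℕ), (E ν).u 0 ≠ x) :
    ∃ τ, ∀ᶠ ν in (U : Filter ℕ), ∀ g ∈ G, ∀ g' ∈ G, Linked (E ν) (E' ν) g g' →
      ∃ j ≤ τ, Merge (E ν) (E' ν) o o' g g' j := by
  by_contra hne
  let Bad : ℕ → ℕ → Prop := fun ν τ => ∃ g ∈ G, ∃ g' ∈ G, Linked (E ν) (E' ν) g g' ∧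
    ∀ j ≤ τ, ¬Merge (E ν) (E' ν) o o' g g' j
  have hb : ∀ τ, ∀ᶠ ν in (U : Filter ℕ), Bad ν τ := fun τ => by
    have := Ultrafilter.eventually_not.2 fun h => hne ⟨τ, h⟩
    refine this.mono fun ν h => ?_
    push Not at h
    exact h
  have hch : ∀ ν, ∃ g g' : Gal, g ∈ G ∧ g' ∈ G ∧ ∀ τ ≤ (E ν).n, Bad ν τ →
      Linked (E ν) (E' ν) g g' ∧ ∀ j ≤ τ, ¬Merge (E ν) (E' ν) o o' g g' j := fun ν => by
    by_cases h : ∃ τ ≤ (E ν).n, Bad ν τ
    · obtain ⟨τ, h1, h2⟩ := h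
      obtain ⟨g, hg, g', hg', h3, h4⟩ := Nat.findGreatest_spec (P := Bad ν) h1 h2
      exact ⟨g, g', hg, hg', fun τ' h5 h6 =>
        ⟨h3, fun j hj => h4 j (hj.trans (Nat.le_findGreatest h5 h6))⟩⟩
    · exact ⟨1, 1, G.one_mem, G.one_mem, fun τ h1 h2 => absurd ⟨τ, h1, h2⟩ h⟩
  choose g g' hg hg' hgg using hch
  have hk : ∀ τ, ∀ᶠ ν in (U : Filter ℕ), Linked (E ν) (E' ν) (g ν) (g' ν) ∧
      ∀ j ≤ τ, ¬Merge (E ν) (E' ν) o o' (g ν) (g' ν) j := fun τ => by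
    filter_upwards [hb τ, hl τ] with ν h1 h2 using hgg ν τ h2 h1
  obtain ⟨d, -, Ca, -, hS⟩ := exists_Sz_finset {c, c'}
  obtain ⟨j, -, μ, -, hμ, h⟩ := hI p q c c' hp hpq hcop hc hc' U
    (fun ν => (E ν).map (g ν) (hG _ (hg ν)).1) (fun ν => (E' ν).map (g' ν) (hG _ (hg' ν)).2) o o'
    (2 * Real.log (1 + Ca))
    ⟨fun J => by
      filter_upwards [hn, hl (J + o)] with ν h1 h2
      simp only [Dat.map_n]
      omega,
    fun j => by
      filter_upwards [hn, hl (2 * (j + o)), hk 0] with ν h1 h2 h3 s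
      exact linked_size hpq (hS c (by simp)) (hS c' (by simp)) h1 h2 h3.1 s⟩
    (fun x => (vary hv (orb_finite ⊤ x)).mono fun ν h e =>
      h ⟨(g ν)⁻¹, Subgroup.mem_top _, by
        rw [← e, Dat.map_u, ← AlgEquiv.mul_apply, inv_mul_cancel, AlgEquiv.one_apply]⟩) 0
  obtain ⟨ν, h1, h2⟩ := (h.and (hk j)).exists
  refine h2.2 j le_rfl ?_
  simp only [Dat.map_t] at h1
  rw [Merge, h1, mul_pow, ← hμ]
  have : μ ≠ 0 := by
    rintro rfl
    rw [zero_pow (by omega), zero_mul] at hμ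
    exact hc' hμ.symm
  field_simp

/-- Few starting points for a forward chain. -/
theorem count (hq : 0 < q) (c : Qb) (j : ℕ) (w : Qb) :
    ∃ S : Finset Qb, S.card ≤ q ^ (j + 1) ∧
      ∀ t : ℕ → Qb, Bwd p q c j t → t j ^ q = w → t 0 ∈ S := by
  induction j generalizing w with
  | zero =>
    refine ⟨(nthRoots q w).toFinset, by
      simpa using (Multiset.toFinset_card_le _).trans (card_nthRoots _ _), fun t _ h => ?_⟩
    simpa [mem_nthRoots hq] using h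
  | succ j ih =>
    choose S h1 h2 using ih
    refine ⟨(nthRoots q w).toFinset.biUnion fun r => S (r ^ p + c), ?_, fun t ht h => ?_⟩
    · refine (card_biUnion_le_card_mul _ _ _ fun r _ => h1 _).trans ?_
      rw [pow_succ' q (j + 1)]
      exact Nat.mul_le_mul_right _ ((Multiset.toFinset_card_le _).trans (card_nthRoots _ _))
    · exact mem_biUnion.2 ⟨t (j + 1), by simpa [mem_nthRoots hq] using h,
        h2 _ t (fun k hk => ht k (by omega)) (ht j (by omega)).symm⟩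

theorem count_merge (hq : 0 < q) {c c' : Qb} (E : Dat p q c) (E' : Dat p q c') (o o' τ : ℕ)
    (hτ : τ + o ≤ E.n) (g' : Gal) :
    ∃ S : Finset Qb, S.card ≤ (τ + 1) * q ^ (τ + o + 1) ∧
      ∀ g : Gal, g c = c → (∃ j ≤ τ, Merge E E' o o' g g' j) → g (E.t 0) ∈ S := by
  choose S h1 h2 using count (p := p) hq c
  refine ⟨(range (τ + 1)).biUnion fun j => S (j + o) (c / c' * g' (E'.t (j + o')) ^ q), ?_, ?_⟩
  · refine (card_biUnion_le_card_mul _ _ (q ^ (τ + o + 1)) fun j hj => (h1 _ _).trans ?_).trans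
      (by rw [card_range])
    exact Nat.pow_le_pow_right hq (by have := mem_range.1 hj; omega)
  · rintro g hg ⟨j, hj, h⟩
    refine mem_biUnion.2 ⟨j, mem_range.2 (by omega), h2 _ _ (fun i => g (E.t i)) ?_ h⟩
    exact fun k hk => (E.map g hg).ht k (by rw [Dat.map_n]; omega)

/-- Polylogarithmic quantities are small. -/
theorem numeric (C C₂ : ℕ) : ∃ N, ∀ n, N ≤ n → ∃ L k : ℕ, (n + 2) ^ C ≤ 2 ^ L ∧
    (C₂ * (L + 1)) ^ C₂ ≤ k ∧ C₂ * (k + 1) ≤ n ∧ 2 * k ≤ n := by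
  set B := 2 * C₂ * (C + 1) with hB
  set K := (C₂ + 2) * (B ^ C₂ + 1) + 2 with hK
  have h1 := (tendsto_pow_const_div_const_pow_of_one_lt C₂ (one_lt_two (α := ℝ))).eventually
    (eventually_le_nhds (show (0 : ℝ) < 1 / K by positivity))
  obtain ⟨s₀, hs₀⟩ := eventually_atTop.1 h1
  refine ⟨2 ^ (s₀ + 1), fun n hn => ?_⟩
  set s := Nat.log 2 (n + 2) with hs
  have h2 : s₀ + 1 ≤ s := Nat.le_log_of_pow_le one_lt_two (by omega)
  have h3 : 2 ^ s ≤ n + 2 := Nat.pow_log_le_self 2 (by omega)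
  have h4 : n + 2 ≤ 2 ^ (s + 1) := (Nat.lt_pow_succ_log_self one_lt_two _).le
  have h5 : K * s ^ C₂ ≤ 2 ^ s := by
    have := hs₀ s (by omega)
    rw [div_le_div_iff₀ (by positivity) (by positivity), one_mul, mul_comm] at this
    exact_mod_cast this
  have h6 : 1 ≤ s ^ C₂ := Nat.one_le_pow _ _ (by omega)
  have h7 : (C₂ * (C * (s + 1) + 1)) ^ C₂ ≤ B ^ C₂ * s ^ C₂ := by
    rw [← mul_pow]
    refine Nat.pow_le_pow_left ?_ _
    have : C * (s + 1) + 1 ≤ 2 * (C + 1) * s := by nlinarith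
    calc _ ≤ C₂ * (2 * (C + 1) * s) := Nat.mul_le_mul_left _ this
      _ = _ := by rw [hB]; ring
  have h8 : (C₂ + 2) * (B ^ C₂ * s ^ C₂ + 1) + 2 ≤ n + 2 := by
    refine le_trans ?_ (h5.trans h3)
    rw [hK]
    nlinarith [Nat.zero_le C₂, Nat.mul_le_mul_left (C₂ + 2) h6]
  refine ⟨C * (s + 1), B ^ C₂ * s ^ C₂, ?_, h7, by nlinarith, by nlinarith⟩
  rw [mul_comm, pow_mul]
  exact Nat.pow_le_pow_left h4 _

theorem cv (h1 : CV1Stmt) (hI : IPStmt) (hE : ESCStmt) (hT : TDStmt) : CVStmt := by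
  intro p q a b hp hpq hcop ha hb hab U D D' o o' hS hv
  have hp0 : 0 < p := by omega
  have hq0 : 0 < q := by omega
  have hG : (GK p q a b).index ≠ 0 := GK_index (Nat.mul_pos hp0 hq0) a b
  have hθ : (1 : ℝ) < (q : ℝ) / p := (one_lt_div (by exact_mod_cast hp0)).2 (by exact_mod_cast hpq)
  obtain ⟨τ₁, hτ₁⟩ := uniform hI hp hpq hcop ha ha (G := GK p q a b)
    (fun g hg => ⟨GK_left hg, GK_left hg⟩) (E := D) (E' := D) (o := 0) (o' := 0)
    (Eventually.of_forall fun _ => rfl) hS.long hv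
  obtain ⟨τ₂, hτ₂⟩ := uniform hI hp hpq hcop ha hb (G := GK p q a b)
    (fun g hg => ⟨GK_left hg, GK_right hg⟩) (E := D) (E' := D') (o := o) (o' := o')
    (hS.top.mono fun _ h => h.2) hS.long hv
  obtain ⟨d, hd, Ca, hCa, ha'⟩ := exists_Sz a
  obtain ⟨δ, hδ, hE⟩ := hE p q a _ hp hpq hcop ha hG (GK_le_left p q a b)
  obtain ⟨j₀, hj₀⟩ := pow_unbounded_of_one_lt ((Real.log (1 + Ca) + 1) / δ) hθ
  rw [div_lt_iff₀' hδ] at hj₀
  obtain ⟨m, C₁, hE⟩ := hE (1 + Ca) d j₀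
    ((τ₁ + 1) * q ^ (τ₁ + 0 + 1) + (τ₂ + 1) * q ^ (τ₂ + o + 1) + 1) hd
  obtain ⟨C, hC⟩ := h1 p q a b hp hpq hcop ha hb hab U D D' o o' hS hv
  obtain ⟨C₂, hT⟩ := hT p q a b (((q : ℝ) / p) ^ j₀)⁻¹ (o + o') hp hpq hcop ha hb hab
    (by positivity)
  obtain ⟨N, hN⟩ := numeric C C₂
  obtain ⟨ν, h₁, h₂, h₃, h₄, h₅, h₆⟩ := (hτ₁.and (hτ₂.and (hC.and (hS.top.and
    ((hS.long (N + j₀ + τ₁ + τ₂ + o)).and
      (vary hv (northcott hG C₁ hd (1 + Ca)))))))).exists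
  obtain ⟨g, hg, hinj, hbig⟩ := hE (D ν).ξ (D ν).u (D ν).t (D ν).hξ (D ν).hξ1 ((D ν).bwd_u m)
    (fun i _ => (D ν).u_Sz hp0 hpq ha' i) (D ν).ht0 (fun k hk => (D ν).ht k (by omega))
    (not_le.1 fun h => h₆ ⟨h, (D ν).u_Sz hp0 hpq ha' 0⟩)
  have htop : ∀ l, (((q : ℝ) / p) ^ j₀)⁻¹ * ((q : ℝ) / p) ^ (D ν).n ≤ lp (g l ((D ν).lev 0)) := by
    intro l
    have e1 := esc_low (F := Qb) hp0 hpq ha'.norm_le
      (((D ν).map (g l) (GK_left (hg l))).ht.shift (i := j₀) (m := (D ν).n - j₀)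
        (by rw [Dat.map_n]; omega)) _ le_rfl
    simp only [Dat.map_t, add_zero] at e1
    rw [show j₀ + ((D ν).n - j₀) = (D ν).n by omega] at e1
    have e2 := hbig l
    have e3 := log_one_add_nonneg ha'.nonneg
    have e4 : (0 : ℝ) < ((q : ℝ) / p) ^ ((D ν).n - j₀) := by positivity
    rw [Dat.lev_zero, mul_comm, ← pow_sub₀ _ (by positivity) (by omega)]
    nlinarith
  obtain ⟨L, k, k1, k2, k3, k4⟩ := hN (D ν).n (by omega)
  obtain ⟨S₁, s1, s2⟩ := count_merge hq0 (D ν) (D ν) 0 0 τ₁ (by omega) (g 0)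
  obtain ⟨S₂, s3, s4⟩ := count_merge hq0 (D ν) (D' ν) o o' τ₂ (by omega) (g 0)
  have hmem : ∀ l, g l ((D ν).t 0) ∈ S₁ ∪ S₂ := by
    intro l
    obtain ⟨j, hj, h | ⟨μ, m1, m2, -, m3⟩⟩ := hT (D ν) (D' ν) L k (g l) (g 0) h₄.1 (by omega)
      (by omega) (h₃.trans k1) k2 k3 (hg l) (hg 0) (htop l) (htop 0)
    · exact mem_union_left _ (s2 _ (GK_left (hg l)) (h₁ _ (hg l) _ (hg 0)
        ⟨j, by omega, 1, one_pow _, by simpa using h⟩))
    · refine mem_union_right _ (s4 _ (GK_left (hg l)) (h₂ _ (hg l) _ (hg 0)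
        ⟨j, by omega, μ, ?_, m3⟩))
      have e1 : μ ^ p ≠ 0 := fun e => ha (by rw [← m1, e, zero_mul])
      have e2 : μ ^ q = μ ^ p := mul_right_cancel₀ hb (m2.trans m1.symm)
      refine mul_right_cancel₀ e1 ?_
      rw [← pow_add, show q - p + p = q by omega, e2, one_mul]
  have hξ : (D ν).ξ ≠ 0 := fun e => by
    have := (D ν).hξ
    rw [e, zero_pow (by omega)] at this
    exact zero_ne_one this
  have := card_le_card_of_injOn (s := univ) (fun l => g l ((D ν).t 0)) (fun l _ => hmem l)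
    fun l _ l' _ e => hinj (by
      simp only [(D ν).ht0, map_mul, GK_p (hg _) (D ν).hξ] at e
      exact mul_left_cancel₀ hξ e)
  rw [card_univ, Fintype.card_fin] at this
  have := card_union_le S₁ S₂
  omega

end Pool.Agent.MP_09973c_nt.H3
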